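import Pool.Agent.V8H12.Conf.Main

/-!
# MP_b1730f_co, Q1: a conflict graph that is not a string graph

The graph obtained from `K_{3,3}` by subdividing every edge once (15 vertices, 18 edges) is the
conflict graph of an explicit plane drawing (33 segments, 48 special points), and it is not a
string graph.  Definitions: `Pool.Agent.V8H12.Conf.Defs`.
-/

namespace Pool.Agent.Results.MP_b1730f_co.SubdividedK33

open Pool.Agent.V8H12.Conf

/-- The once-subdivided `K_{3,3}` is a conflict graph but not a string graph. -/
theorem result : IsConflictGraph subdividedK33 ∧ ¬ IsStringGraph subdividedK33 :=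
  ⟨conflict_subdividedK33, not_string_subdividedK33⟩

end Pool.Agent.Results.MP_b1730f_co.SubdividedK33
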